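import Mathlib

/-!
MP_ffae75_co.  The base-`r` `d`-simplex is not always Ehrhart positive: for `(r,d) = (14,5)` the
linear coefficient of the Ehrhart polynomial is negative.
-/

namespace Pool.Agent.Results.MP_ffae75_co.NotEhrhartPositive

open scoped Pointwise

/-- The base-`r` `d`-simplex `conv(e_1,…,e_d, -∑_k (r-1) r^(k-1) e_k)` in `ℝ^d`
(coordinates indexed by `k = 0,…,d-1`). -/
def baseSimplex (r d : ℕ) : Set (Fin d → ℝ) :=
  convexHull ℝ (Set.range (fun k : Fin d => (Pi.single k 1 : Fin d → ℝ)) ∪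
    {fun k : Fin d => -(((r : ℝ) - 1) * (r : ℝ) ^ (k : ℕ))})

/-- Number of lattice points of the dilate `tP`. -/
noncomputable def latticeCount {d : ℕ} (P : Set (Fin d → ℝ)) (t : ℕ) : ℕ∞ :=
  Set.encard {z : Fin d → ℤ | (fun i => (z i : ℝ)) ∈ (t : ℝ) • P}

/-- `p` is the Ehrhart polynomial of `P`: `p(t) = #(tP ∩ ℤ^d)` for all integers `t ≥ 0`. -/
def IsEhrhartPolynomial {d : ℕ} (P : Set (Fin d → ℝ)) (p : Polynomial ℚ) : Prop :=
  ∀ t : ℕ, ∃ N : ℕ, latticeCount P t = (N : ℕ∞) ∧ (N : ℚ) = p.eval (t : ℚ)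

/-! ### Geometry -/

theorem forall5 (P : Fin 5 → Prop) (h0 : P 0) (h1 : P 1) (h2 : P 2) (h3 : P 3) (h4 : P 4) :
    ∀ k, P k := by
  intro k
  fin_cases k
  · exact h0
  · exact h1
  · exact h2
  · exact h3
  · exact h4

theorem mem_base (x : Fin 5 → ℝ) : x ∈ baseSimplex 14 5 ↔
    0 ≤ 1 - ∑ i, x i ∧ ∀ k, 0 ≤ (14 : ℝ) ^ 5 * x k + 13 * 14 ^ (k : ℕ) * (1 - ∑ i, x i) := by
  constructor
  · intro hx
    have hconv : Convex ℝ {x : Fin 5 → ℝ | 0 ≤ 1 - ∑ i, x i ∧
        ∀ k, 0 ≤ (14 : ℝ) ^ 5 * x k + 13 * 14 ^ (k : ℕ) * (1 - ∑ i, x i)} := by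
      intro u hu v hv a b ha hb hab
      have hs : ∑ i, (a • u + b • v) i = a * ∑ i, u i + b * ∑ i, v i := by
        simp only [Pi.add_apply, Pi.smul_apply, smul_eq_mul, Finset.sum_add_distrib,
          Finset.mul_sum]
      have h1 : 1 - ∑ i, (a • u + b • v) i = a * (1 - ∑ i, u i) + b * (1 - ∑ i, v i) := by
        rw [hs]; linear_combination -hab
      refine ⟨?_, fun k => ?_⟩
      · rw [h1]; exact add_nonneg (mul_nonneg ha hu.1) (mul_nonneg hb hv.1)
      · rw [h1]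
        have e : (14 : ℝ) ^ 5 * (a • u + b • v) k
            + 13 * 14 ^ (k : ℕ) * (a * (1 - ∑ i, u i) + b * (1 - ∑ i, v i))
            = a * ((14 : ℝ) ^ 5 * u k + 13 * 14 ^ (k : ℕ) * (1 - ∑ i, u i))
              + b * ((14 : ℝ) ^ 5 * v k + 13 * 14 ^ (k : ℕ) * (1 - ∑ i, v i)) := by
          simp only [Pi.add_apply, Pi.smul_apply, smul_eq_mul]; ring
        rw [e]
        exact add_nonneg (mul_nonneg ha (hu.2 k)) (mul_nonneg hb (hv.2 k))
    refine convexHull_min ?_ hconv hx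
    rintro y (⟨k, rfl⟩ | rfl)
    · refine ⟨by simp, fun j => ?_⟩
      simp only [Finset.sum_pi_single', Finset.mem_univ, if_true]
      by_cases h : j = k
      · subst h; simp
      · simp [h]
    · refine ⟨?_, fun k => ?_⟩
      · simp only [Fin.sum_univ_five]
        norm_num
      · simp only [Fin.sum_univ_five]
        fin_cases k <;> norm_num
  · rintro ⟨h0, h1⟩
    have hc := convex_convexHull ℝ (Set.range (fun k : Fin 5 => (Pi.single k 1 : Fin 5 → ℝ)) ∪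
      {fun k : Fin 5 => -((((14 : ℕ) : ℝ) - 1) * ((14 : ℕ) : ℝ) ^ (k : ℕ))})
    set V := (Set.range (fun k : Fin 5 => (Pi.single k 1 : Fin 5 → ℝ)) ∪
      {fun k : Fin 5 => -((((14 : ℕ) : ℝ) - 1) * ((14 : ℕ) : ℝ) ^ (k : ℕ))}) with hV
    let μ : ℝ := (1 - ∑ i, x i) / 14 ^ 5
    let wt : Option (Fin 5) → ℝ := fun o => match o with
      | none => μ
      | some k => x k + μ * (13 * 14 ^ (k : ℕ))
    let pt : Option (Fin 5) → (Fin 5 → ℝ) := fun o => match o with
      | none => fun k : Fin 5 => -((((14 : ℕ) : ℝ) - 1) * ((14 : ℕ) : ℝ) ^ (k : ℕ))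
      | some k => Pi.single k 1
    have hμ : μ * 14 ^ 5 = 1 - ∑ i, x i := by
      simp only [μ]; field_simp
    have hμ0 : 0 ≤ μ := div_nonneg h0 (by positivity)
    have hx : x = ∑ o, wt o • pt o := by
      funext k
      rw [Finset.sum_apply, Fintype.sum_option]
      simp only [wt, pt, Pi.smul_apply, smul_eq_mul]
      rw [Finset.sum_eq_single k]
      · simp; ring
      · intro j _ hj; simp [Ne.symm hj]
      · simp
    rw [hx]
    refine hc.sum_mem ?_ ?_ ?_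
    · rintro (_ | k) _
      · exact hμ0
      · have := h1 k
        rw [← hμ] at this
        change 0 ≤ x k + μ * (13 * 14 ^ (k : ℕ))
        nlinarith
    · rw [Fintype.sum_option]
      simp only [wt, Fin.sum_univ_five]
      simp only [Fin.sum_univ_five] at hμ
      norm_num
      norm_num at hμ
      linarith
    · rintro (_ | k) _
      · exact subset_convexHull ℝ V (Or.inr rfl)
      · exact subset_convexHull ℝ V (Or.inl ⟨k, rfl⟩)

theorem mem_dilate (t : ℕ) (x : Fin 5 → ℝ) : x ∈ (t : ℝ) • baseSimplex 14 5 ↔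
    0 ≤ (t : ℝ) - ∑ i, x i ∧
      ∀ k, 0 ≤ (14 : ℝ) ^ 5 * x k + 13 * 14 ^ (k : ℕ) * ((t : ℝ) - ∑ i, x i) := by
  constructor
  · rintro ⟨y, hy, rfl⟩
    obtain ⟨h0, h1⟩ := (mem_base y).1 hy
    have ht : (0 : ℝ) ≤ t := Nat.cast_nonneg t
    have hs : ∑ i, ((t : ℝ) • y) i = t * ∑ i, y i := by
      simp only [Pi.smul_apply, smul_eq_mul, Finset.mul_sum]
    refine ⟨?_, fun k => ?_⟩
    · change 0 ≤ (t : ℝ) - ∑ i, ((t : ℝ) • y) i
      rw [hs]; nlinarith [mul_nonneg ht h0]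
    · change 0 ≤ (14 : ℝ) ^ 5 * (((t : ℝ) • y) k) + 13 * 14 ^ (k : ℕ) * ((t : ℝ) - ∑ i, ((t : ℝ) • y) i)
      rw [hs, Pi.smul_apply, smul_eq_mul]
      have := mul_nonneg ht (h1 k)
      nlinarith [this]
  · rintro ⟨h0, h1⟩
    rcases Nat.eq_zero_or_pos t with ht | ht
    · subst ht
      have hx0 : x = 0 := by
        simp only [Nat.cast_zero, zero_sub] at h0 h1
        have e0 := h1 0
        have e1 := h1 1
        have e2 := h1 2
        have e3 := h1 3
        have e4 := h1 4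
        simp only [Fin.sum_univ_five] at h0 e0 e1 e2 e3 e4
        norm_num at h0 e0 e1 e2 e3 e4
        funext k
        refine forall5 (fun k => x k = 0) ?_ ?_ ?_ ?_ ?_ k <;> linarith
      have hne : (0 : Fin 5 → ℝ) ∈ baseSimplex 14 5 := by
        rw [mem_base]; simp
      exact ⟨0, hne, by rw [hx0]; simp⟩
    · have htr : (0 : ℝ) < t := by exact_mod_cast ht
      refine ⟨(t : ℝ)⁻¹ • x, (mem_base _).2 ⟨?_, fun k => ?_⟩, ?_⟩
      · have : ∑ i, ((t : ℝ)⁻¹ • x) i = (t : ℝ)⁻¹ * ∑ i, x i := by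
          simp only [Pi.smul_apply, smul_eq_mul, Finset.mul_sum]
        rw [this]
        have e : 1 - (t : ℝ)⁻¹ * ∑ i, x i = (t : ℝ)⁻¹ * (t - ∑ i, x i) := by
          field_simp
        rw [e]; exact mul_nonneg (by positivity) h0
      · have : ∑ i, ((t : ℝ)⁻¹ • x) i = (t : ℝ)⁻¹ * ∑ i, x i := by
          simp only [Pi.smul_apply, smul_eq_mul, Finset.mul_sum]
        rw [this, Pi.smul_apply, smul_eq_mul]
        have e : (14 : ℝ) ^ 5 * ((t : ℝ)⁻¹ * x k) + 13 * 14 ^ (k : ℕ) * (1 - (t : ℝ)⁻¹ * ∑ i, x i)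
            = (t : ℝ)⁻¹ * ((14 : ℝ) ^ 5 * x k + 13 * 14 ^ (k : ℕ) * (t - ∑ i, x i)) := by
          field_simp
        rw [e]; exact mul_nonneg (by positivity) (h1 k)
      · change (t : ℝ) • ((t : ℝ)⁻¹ • x) = x
        rw [smul_smul, mul_inv_cancel₀ htr.ne', one_smul]

/-! ### Lattice points -/

/-- the height function on `{0,…,14^5-1}` -/
def w (b : ℕ) : ℕ :=
  b - (13 * b / 537824 + 13 * b / 38416 + 13 * b / 2744 + 13 * b / 196 + 13 * b / 14)

theorem w_le (b : ℕ) (hb : b < 537824) : w b ≤ 5 := by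
  unfold w
  have h0 := Nat.lt_mul_div_succ (13 * b) (show 0 < 537824 by norm_num)
  have h1 := Nat.lt_mul_div_succ (13 * b) (show 0 < 38416 by norm_num)
  have h2 := Nat.lt_mul_div_succ (13 * b) (show 0 < 2744 by norm_num)
  have h3 := Nat.lt_mul_div_succ (13 * b) (show 0 < 196 by norm_num)
  have h4 := Nat.lt_mul_div_succ (13 * b) (show 0 < 14 by norm_num)
  generalize 13 * b / 537824 = q0 at *
  generalize 13 * b / 38416 = q1 at *
  generalize 13 * b / 2744 = q2 at *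
  generalize 13 * b / 196 = q3 at *
  generalize 13 * b / 14 = q4 at *
  by_contra hc
  have : b ≥ 6 + (q0 + q1 + q2 + q3 + q4) := by omega
  linarith

theorem w_ge (b : ℕ) : 13 * b / 537824 + 13 * b / 38416 + 13 * b / 2744 + 13 * b / 196 + 13 * b / 14 ≤ b := by
  have h0 := Nat.div_mul_le_self (13 * b) 537824
  have h1 := Nat.div_mul_le_self (13 * b) 38416
  have h2 := Nat.div_mul_le_self (13 * b) 2744
  have h3 := Nat.div_mul_le_self (13 * b) 196
  have h4 := Nat.div_mul_le_self (13 * b) 14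
  generalize 13 * b / 537824 = q0 at *
  generalize 13 * b / 38416 = q1 at *
  generalize 13 * b / 2744 = q2 at *
  generalize 13 * b / 196 = q3 at *
  generalize 13 * b / 14 = q4 at *
  by_contra hc
  have : b + 1 ≤ (q0 + q1 + q2 + q3 + q4) := by omega
  linarith

theorem w_cast (b : ℕ) : (w b : ℤ) = b - (13 * (b : ℤ) / 537824 + 13 * (b : ℤ) / 38416
    + 13 * (b : ℤ) / 2744 + 13 * (b : ℤ) / 196 + 13 * (b : ℤ) / 14) := by
  unfold w
  rw [Nat.cast_sub (w_ge b)]
  push_cast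
  rfl

/-- parametrisation of the lattice points of the `t`-th dilate -/
def F (N t : ℕ) : Finset (Σ _ : ℕ, (Fin 6 → ℕ)) :=
  (Finset.range N).sigma
    (fun b => if w b ≤ t then Finset.piAntidiag Finset.univ (t - w b) else ∅)

theorem mem_F (N t b : ℕ) (y : Fin 6 → ℕ) : (⟨b, y⟩ : Σ _ : ℕ, (Fin 6 → ℕ)) ∈ F N t ↔
    b < N ∧ y 0 + y 1 + y 2 + y 3 + y 4 + y 5 + w b = t := by
  unfold F
  rw [Finset.mem_sigma, Finset.mem_range]
  refine and_congr_right (fun hb => ?_)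
  by_cases hw : w b ≤ t
  · simp only [hw, if_true, Finset.mem_piAntidiag, Finset.mem_univ, implies_true, and_true,
      Fin.sum_univ_six]
    omega
  · simp only [hw, if_false, Finset.notMem_empty, false_iff]
    omega

/-- the floor functions -/
def fl (s : ℤ) (k : Fin 5) : ℤ := ![13 * s / 537824, 13 * s / 38416, 13 * s / 2744, 13 * s / 196,
  13 * s / 14] k

theorem fl_0 (s : ℤ) : fl s 0 = 13 * s / 537824 := rfl
theorem fl_1 (s : ℤ) : fl s 1 = 13 * s / 38416 := rfl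
theorem fl_2 (s : ℤ) : fl s 2 = 13 * s / 2744 := rfl
theorem fl_3 (s : ℤ) : fl s 3 = 13 * s / 196 := rfl
theorem fl_4 (s : ℤ) : fl s 4 = 13 * s / 14 := rfl

theorem fl0 (m b : ℤ) : fl (m * 537824 + b) 0 = 13 * m + fl b 0 := by rw [fl_0, fl_0]; omega
theorem fl1 (m b : ℤ) : fl (m * 537824 + b) 1 = 182 * m + fl b 1 := by rw [fl_1, fl_1]; omega
theorem fl2 (m b : ℤ) : fl (m * 537824 + b) 2 = 2548 * m + fl b 2 := by rw [fl_2, fl_2]; omega
theorem fl3 (m b : ℤ) : fl (m * 537824 + b) 3 = 35672 * m + fl b 3 := by rw [fl_3, fl_3]; omega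
theorem fl4 (m b : ℤ) : fl (m * 537824 + b) 4 = 499408 * m + fl b 4 := by rw [fl_4, fl_4]; omega

theorem w_fl (b : ℕ) : (w b : ℤ) = b - (fl b 0 + fl b 1 + fl b 2 + fl b 3 + fl b 4) := w_cast b

theorem w_def (b : ℕ) : w b =
  b - (13 * b / 537824 + 13 * b / 38416 + 13 * b / 2744 + 13 * b / 196 + 13 * b / 14) := rfl

attribute [irreducible] fl w

/-- slack as a function of the parameters -/
def sl (b : ℕ) (m : ℕ) : ℤ := (m : ℤ) * 537824 + b

theorem sl_nonneg (b m : ℕ) : 0 ≤ sl b m := by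
  unfold sl; omega

def φ (a : Σ _ : ℕ, (Fin 6 → ℕ)) (k : Fin 5) : ℤ := (a.2 k.castSucc : ℤ) - fl (sl a.1 (a.2 5)) k

theorem φ0 (b : ℕ) (y : Fin 6 → ℕ) : φ ⟨b, y⟩ 0 = (y 0 : ℤ) - fl (sl b (y 5)) 0 := rfl
theorem φ1 (b : ℕ) (y : Fin 6 → ℕ) : φ ⟨b, y⟩ 1 = (y 1 : ℤ) - fl (sl b (y 5)) 1 := rfl
theorem φ2 (b : ℕ) (y : Fin 6 → ℕ) : φ ⟨b, y⟩ 2 = (y 2 : ℤ) - fl (sl b (y 5)) 2 := rfl
theorem φ3 (b : ℕ) (y : Fin 6 → ℕ) : φ ⟨b, y⟩ 3 = (y 3 : ℤ) - fl (sl b (y 5)) 3 := rfl
theorem φ4 (b : ℕ) (y : Fin 6 → ℕ) : φ ⟨b, y⟩ 4 = (y 4 : ℤ) - fl (sl b (y 5)) 4 := rfl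

attribute [irreducible] φ

/-- the sum of the coordinates determines the slack -/
theorem slack (t b : ℕ) (y : Fin 6 → ℕ)
    (h : y 0 + y 1 + y 2 + y 3 + y 4 + y 5 + w b = t) :
    (t : ℤ) - (φ ⟨b, y⟩ 0 + φ ⟨b, y⟩ 1 + φ ⟨b, y⟩ 2 + φ ⟨b, y⟩ 3 + φ ⟨b, y⟩ 4)
      = sl b (y 5) := by
  have hw := w_fl b
  rw [φ0, φ1, φ2, φ3, φ4]
  unfold sl
  rw [fl0, fl1, fl2, fl3, fl4]
  have ht : (t : ℤ) = y 0 + y 1 + y 2 + y 3 + y 4 + y 5 + w b := by
    rw [← h]; push_cast; ring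
  rw [ht, hw]
  ring

theorem mem_int (t : ℕ) (z : Fin 5 → ℤ) : (fun i => (z i : ℝ)) ∈ (t : ℝ) • baseSimplex 14 5 ↔
    0 ≤ (t : ℤ) - (z 0 + z 1 + z 2 + z 3 + z 4) ∧
    0 ≤ z 0 + fl ((t : ℤ) - (z 0 + z 1 + z 2 + z 3 + z 4)) 0 ∧
    0 ≤ z 1 + fl ((t : ℤ) - (z 0 + z 1 + z 2 + z 3 + z 4)) 1 ∧
    0 ≤ z 2 + fl ((t : ℤ) - (z 0 + z 1 + z 2 + z 3 + z 4)) 2 ∧
    0 ≤ z 3 + fl ((t : ℤ) - (z 0 + z 1 + z 2 + z 3 + z 4)) 3 ∧
    0 ≤ z 4 + fl ((t : ℤ) - (z 0 + z 1 + z 2 + z 3 + z 4)) 4 := by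
  rw [mem_dilate]
  have hs : ((t : ℝ) - ∑ i, (z i : ℝ)) = (((t : ℤ) - (z 0 + z 1 + z 2 + z 3 + z 4) : ℤ) : ℝ) := by
    rw [Fin.sum_univ_five]; push_cast; ring
  rw [hs, fl_0, fl_1, fl_2, fl_3, fl_4]
  generalize (t : ℤ) - (z 0 + z 1 + z 2 + z 3 + z 4) = s
  have key : ∀ k : Fin 5, (0 ≤ (14 : ℝ) ^ 5 * (z k : ℝ) + 13 * 14 ^ (k : ℕ) * (s : ℝ)) ↔
      0 ≤ (14 : ℤ) ^ 5 * z k + 13 * 14 ^ (k : ℕ) * s := by
    intro k
    have : ((14 : ℝ) ^ 5 * (z k : ℝ) + 13 * 14 ^ (k : ℕ) * (s : ℝ)) =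
      (((14 : ℤ) ^ 5 * z k + 13 * 14 ^ (k : ℕ) * s : ℤ) : ℝ) := by push_cast; ring
    rw [this]
    exact Int.cast_nonneg_iff
  constructor
  · rintro ⟨h0, h1⟩
    have h0' : 0 ≤ s := by exact_mod_cast h0
    have e0 := (key 0).1 (h1 0)
    have e1 := (key 1).1 (h1 1)
    have e2 := (key 2).1 (h1 2)
    have e3 := (key 3).1 (h1 3)
    have e4 := (key 4).1 (h1 4)
    norm_num at e0 e1 e2 e3 e4
    refine ⟨h0', ?_, ?_, ?_, ?_, ?_⟩ <;> omega
  · rintro ⟨h0, f0, f1, f2, f3, f4⟩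
    refine ⟨by exact_mod_cast h0, fun k => (key k).2 ?_⟩
    refine forall5 (fun k => 0 ≤ (14 : ℤ) ^ 5 * z k + 13 * 14 ^ (k : ℕ) * s) ?_ ?_ ?_ ?_ ?_ k <;>
      norm_num <;> omega

theorem image_eq (N t : ℕ) (hN : N = 537824) :
    {z : Fin 5 → ℤ | (fun i => (z i : ℝ)) ∈ (t : ℝ) • baseSimplex 14 5}
      = φ '' (F N t : Set _) := by
  ext z
  rw [Set.mem_ofPred_eq, mem_int]
  constructor
  · rintro ⟨h, h0, h1, h2, h3, h4⟩
    obtain ⟨s, hs⟩ := Int.eq_ofNat_of_zero_le h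
    rw [hs] at h0 h1 h2 h3 h4
    obtain ⟨y0, hy0⟩ := Int.eq_ofNat_of_zero_le h0
    obtain ⟨y1, hy1⟩ := Int.eq_ofNat_of_zero_le h1
    obtain ⟨y2, hy2⟩ := Int.eq_ofNat_of_zero_le h2
    obtain ⟨y3, hy3⟩ := Int.eq_ofNat_of_zero_le h3
    obtain ⟨y4, hy4⟩ := Int.eq_ofNat_of_zero_le h4
    obtain ⟨b, m, hb, hsl⟩ : ∃ b m : ℕ, b < N ∧ sl b m = (s : ℤ) :=
      ⟨s % 537824, s / 537824, by omega, by unfold sl; omega⟩
    obtain ⟨y, e0, e1, e2, e3, e4, e5⟩ : ∃ y : Fin 6 → ℕ, y 0 = y0 ∧ y 1 = y1 ∧ y 2 = y2 ∧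
      y 3 = y3 ∧ y 4 = y4 ∧ y 5 = m := ⟨![y0, y1, y2, y3, y4, m], rfl, rfl, rfl, rfl, rfl, rfl⟩
    rw [← e0] at hy0
    rw [← e1] at hy1
    rw [← e2] at hy2
    rw [← e3] at hy3
    rw [← e4] at hy4
    rw [← e5] at hsl
    have hφ : φ ⟨b, y⟩ = z := by
      funext k
      refine forall5 (fun k => φ ⟨b, y⟩ k = z k) ?_ ?_ ?_ ?_ ?_ k
      · rw [φ0, hsl]; linarith
      · rw [φ1, hsl]; linarith
      · rw [φ2, hsl]; linarith
      · rw [φ3, hsl]; linarith
      · rw [φ4, hsl]; linarith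
    refine ⟨⟨b, y⟩, ?_, hφ⟩
    rw [Finset.mem_coe, mem_F]
    refine ⟨hb, ?_⟩
    have hsl2 := slack _ b y rfl
    rw [hφ, hsl] at hsl2
    have : ((y 0 + y 1 + y 2 + y 3 + y 4 + y 5 + w b : ℕ) : ℤ) = t := by linarith
    exact_mod_cast this
  · rintro ⟨⟨b, y⟩, hm, rfl⟩
    rw [Finset.mem_coe, mem_F] at hm
    have hsl := slack t b y hm.2
    rw [hsl, φ0, φ1, φ2, φ3, φ4]
    simp only [sub_add_cancel]
    refine ⟨?_, by positivity, by positivity, by positivity, by positivity, by positivity⟩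
    exact sl_nonneg _ _

theorem φ_inj (N t : ℕ) (hN : N = 537824) : Set.InjOn φ (F N t : Set _) := by
  rintro ⟨b, y⟩ hm ⟨b', y'⟩ hm' heq
  rw [Finset.mem_coe, mem_F] at hm hm'
  have hsl := slack t b y hm.2
  have hsl' := slack t b' y' hm'.2
  rw [heq, hsl'] at hsl
  have hb := hm.1
  have hb' := hm'.1
  have h5 : y 5 = y' 5 := by
    clear heq hm hm' hsl'
    unfold sl at hsl; omega
  have hbb : b = b' := by
    clear heq hm hm' hsl'
    unfold sl at hsl; omega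
  subst hbb
  have c0 := congrFun heq 0
  have c1 := congrFun heq 1
  have c2 := congrFun heq 2
  have c3 := congrFun heq 3
  have c4 := congrFun heq 4
  rw [φ0, φ0, h5] at c0
  rw [φ1, φ1, h5] at c1
  rw [φ2, φ2, h5] at c2
  rw [φ3, φ3, h5] at c3
  rw [φ4, φ4, h5] at c4
  have hy : y = y' := by
    funext k
    fin_cases k
    · change y 0 = y' 0
      have : (y 0 : ℤ) = y' 0 := by linarith
      exact_mod_cast this
    · change y 1 = y' 1
      have : (y 1 : ℤ) = y' 1 := by linarith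
      exact_mod_cast this
    · change y 2 = y' 2
      have : (y 2 : ℤ) = y' 2 := by linarith
      exact_mod_cast this
    · change y 3 = y' 3
      have : (y 3 : ℤ) = y' 3 := by linarith
      exact_mod_cast this
    · change y 4 = y' 4
      have : (y 4 : ℤ) = y' 4 := by linarith
      exact_mod_cast this
    · exact h5
  rw [hy]

theorem count_eq (N t : ℕ) (hN : N = 537824) :
    latticeCount (baseSimplex 14 5) t = ((F N t).card : ℕ∞) := by
  unfold latticeCount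
  rw [image_eq N t hN, (φ_inj N t hN).encard_image, Set.encard_coe_eq_coe_finsetCard]

theorem card_pi (n : ℕ) :
    (Finset.piAntidiag (Finset.univ : Finset (Fin 6)) n).card = (6 + n - 1).choose n := by
  have h := Finset.card_finsuppAntidiag_nat_eq_choose (s := (Finset.univ : Finset (Fin 6))) n
  rw [Finset.card_univ, Fintype.card_fin] at h
  rw [← h]
  refine Finset.card_nbij' (fun f => Finsupp.equivFunOnFinite.symm f) (fun f => ⇑f) ?_ ?_ ?_ ?_
  · intro f hf
    simp only [Finset.mem_coe, Finset.mem_piAntidiag, Finset.mem_univ, implies_true, and_true] at hf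
    simp only [Finset.mem_coe, Finset.mem_finsuppAntidiag, Finset.subset_univ, and_true]
    exact hf
  · intro f hf
    simp only [Finset.mem_coe, Finset.mem_finsuppAntidiag, Finset.subset_univ, and_true] at hf
    simp only [Finset.mem_coe, Finset.mem_piAntidiag, Finset.mem_univ, implies_true, and_true]
    exact hf
  · intro f _; rfl
  · intro f _; ext i; rfl

theorem card_F (N t : ℕ) (hN : N = 537824) :
    (F N t).card = ∑ b ∈ Finset.range N, (t + 5 - w b).choose 5 := by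
  unfold F
  rw [Finset.card_sigma]
  refine Finset.sum_congr rfl (fun b hb => ?_)
  have hw5 := w_le b (by rw [← hN]; exact Finset.mem_range.1 hb)
  by_cases hw : w b ≤ t
  · rw [if_pos hw, card_pi]
    have e1 : 6 + (t - w b) - 1 = t + 5 - w b := by omega
    rw [e1]
    have e2 : t - w b = (t + 5 - w b) - 5 := by omega
    rw [e2]
    exact Nat.choose_symm (by omega)
  · rw [if_neg hw, Finset.card_empty]
    exact (Nat.choose_eq_zero_of_lt (by omega)).symm

/-! ### The distribution of `w` -/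

/-- the height function for four digits -/
def w4 (b : ℕ) : ℕ := b - (13 * b / 38416 + 13 * b / 2744 + 13 * b / 196 + 13 * b / 14)

theorem w4_ge (b : ℕ) : 13 * b / 38416 + 13 * b / 2744 + 13 * b / 196 + 13 * b / 14 ≤ b := by
  have h1 := Nat.div_mul_le_self (13 * b) 38416
  have h2 := Nat.div_mul_le_self (13 * b) 2744
  have h3 := Nat.div_mul_le_self (13 * b) 196
  have h4 := Nat.div_mul_le_self (13 * b) 14
  generalize 13 * b / 38416 = q1 at *
  generalize 13 * b / 2744 = q2 at *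
  generalize 13 * b / 196 = q3 at *
  generalize 13 * b / 14 = q4 at *
  by_contra hc
  have : b + 1 ≤ (q1 + q2 + q3 + q4) := by omega
  linarith

theorem gl0 (c b : ℕ) : 13 * (c * 38416 + b) / 537824 = (13 * c + 13 * b / 38416) / 14 := by
  rw [show (537824 : ℕ) = 38416 * 14 by norm_num, ← Nat.div_div_eq_div_mul,
    show 13 * (c * 38416 + b) = 13 * b + (13 * c) * 38416 by ring,
    Nat.add_mul_div_right _ _ (by norm_num), add_comm]
theorem gl1 (c b : ℕ) : 13 * (c * 38416 + b) / 38416 = 13 * c + 13 * b / 38416 := by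
  rw [show 13 * (c * 38416 + b) = 13 * b + (13 * c) * 38416 by ring,
    Nat.add_mul_div_right _ _ (by norm_num), add_comm]
theorem gl2 (c b : ℕ) : 13 * (c * 38416 + b) / 2744 = 182 * c + 13 * b / 2744 := by
  rw [show 13 * (c * 38416 + b) = 13 * b + (182 * c) * 2744 by ring,
    Nat.add_mul_div_right _ _ (by norm_num), add_comm]
theorem gl3 (c b : ℕ) : 13 * (c * 38416 + b) / 196 = 2548 * c + 13 * b / 196 := by
  rw [show 13 * (c * 38416 + b) = 13 * b + (2548 * c) * 196 by ring,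
    Nat.add_mul_div_right _ _ (by norm_num), add_comm]
theorem gl4 (c b : ℕ) : 13 * (c * 38416 + b) / 14 = 35672 * c + 13 * b / 14 := by
  rw [show 13 * (c * 38416 + b) = 13 * b + (35672 * c) * 14 by ring,
    Nat.add_mul_div_right _ _ (by norm_num), add_comm]

theorem small (c e : ℕ) (hc : c < 14) (he : e < 13) : (13 * c + e) / 14 + (if e < c then 1 else 0) = c := by
  split_ifs <;> omega

theorem w_split (c b : ℕ) (hc : c < 14) (hb : b < 38416) :
    w (c * 38416 + b) = w4 b + if 13 * b / 38416 < c then 1 else 0 := by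
  rw [w_def]; unfold w4
  rw [gl0, gl1, gl2, gl3, gl4]
  have h4 := w4_ge b
  have he : 13 * b / 38416 < 13 := by omega
  have hs := small c _ hc he
  revert h4 hs
  generalize (if 13 * b / 38416 < c then 1 else 0) = f
  generalize (13 * c + 13 * b / 38416) / 14 = u
  generalize 13 * b / 38416 = q1 at *
  generalize 13 * b / 2744 = q2 at *
  generalize 13 * b / 196 = q3 at *
  generalize 13 * b / 14 = q4 at *
  intro h4 hs
  omega

theorem sum_range_mul' (g : ℕ → ℕ) (m k : ℕ) :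
    ∑ i ∈ Finset.range (m * k), g i = ∑ c ∈ Finset.range m, ∑ i ∈ Finset.range k, g (c * k + i) := by
  induction m with
  | zero => simp
  | succ m ih =>
    rw [Nat.succ_mul, Finset.sum_range_add, ih, Finset.sum_range_succ]

/-- weight of a four digit block, summed over the top digit -/
def leaf (b : ℕ) : ℕ :=
  2 ^ (20 * w4 b) * ((13 * b / 38416 + 1) + 2 ^ 20 * (13 - 13 * b / 38416))

/-- base 14 evaluation tree -/
def tree : ℕ → ℕ → ℕ
  | 0, b => leaf b
  | k + 1, b => tree k (14 * b) + tree k (14 * b + 1) + tree k (14 * b + 2) + tree k (14 * b + 3)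
    + tree k (14 * b + 4) + tree k (14 * b + 5) + tree k (14 * b + 6) + tree k (14 * b + 7)
    + tree k (14 * b + 8) + tree k (14 * b + 9) + tree k (14 * b + 10) + tree k (14 * b + 11)
    + tree k (14 * b + 12) + tree k (14 * b + 13)

theorem sum14 (f : ℕ → ℕ) : ∑ c ∈ Finset.range 14, f c = f 0 + f 1 + f 2 + f 3 + f 4 + f 5 + f 6
    + f 7 + f 8 + f 9 + f 10 + f 11 + f 12 + f 13 := by
  simp only [Finset.sum_range_succ, Finset.sum_range_zero, zero_add]

theorem tree_eq (k b : ℕ) :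
    tree k b = ∑ i ∈ Finset.range (14 ^ k), leaf (b * 14 ^ k + i) := by
  induction k generalizing b with
  | zero => simp [tree]
  | succ k ih =>
    rw [pow_succ', sum_range_mul', sum14]
    have e : ∀ c, ∑ i ∈ Finset.range (14 ^ k), leaf (b * (14 * 14 ^ k) + (c * 14 ^ k + i))
        = tree k (14 * b + c) := by
      intro c
      rw [ih]
      refine Finset.sum_congr rfl (fun i _ => ?_)
      congr 1; ring
    rw [e, e, e, e, e, e, e, e, e, e, e, e, e, e]
    rfl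

theorem top_digit (e : ℕ) (he : e < 13) (X : ℕ) :
    ∑ c ∈ Finset.range 14, X ^ (if e < c then 1 else 0)
      = (e + 1) + X * (13 - e) := by
  rw [sum14]
  interval_cases e <;> norm_num <;> ring

theorem tree_val : tree 4 0 = 1 + 2 ^ 20 * (8567 + 2 ^ 20 * (130403 + 2 ^ 20 * (278187 +
    2 ^ 20 * (114478 + 2 ^ 20 * 6188)))) := by
  decide +kernel

theorem cast_choose5 (m : ℕ) : (120 : ℚ) * (m.choose 5 : ℚ) = m * (m - 1) * (m - 2) * (m - 3) * (m - 4) := by
  have h2 : ∀ m : ℕ, (2 : ℚ) * (m.choose 2 : ℚ) = m * (m - 1) := by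
    intro m
    induction m with
    | zero => simp
    | succ m ih =>
      rw [Nat.choose_succ_succ' m 1]; push_cast; rw [mul_add, ih, Nat.choose_one_right]; ring
  have h3 : ∀ m : ℕ, (6 : ℚ) * (m.choose 3 : ℚ) = m * (m - 1) * (m - 2) := by
    intro m
    induction m with
    | zero => simp
    | succ m ih =>
      rw [Nat.choose_succ_succ' m 2]; push_cast; linear_combination ih + 3 * h2 m
  have h4 : ∀ m : ℕ, (24 : ℚ) * (m.choose 4 : ℚ) = m * (m - 1) * (m - 2) * (m - 3) := by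
    intro m
    induction m with
    | zero => simp
    | succ m ih =>
      rw [Nat.choose_succ_succ' m 3]; push_cast; linear_combination ih + 4 * h3 m
  induction m with
  | zero => simp
  | succ m ih =>
    rw [Nat.choose_succ_succ' m 4]; push_cast; linear_combination ih + 5 * h4 m

theorem total (t : ℕ) : (120 : ℚ) * ((1 * (t + 5).choose 5 + 8567 * (t + 4).choose 5
    + 130403 * (t + 3).choose 5
    + 278187 * (t + 2).choose 5 + 114478 * (t + 1).choose 5 + 6188 * t.choose 5 : ℕ) : ℚ)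
    = 120 - 2144 * t + 39550 * t ^ 2 + 349980 * t ^ 3 + 103430 * t ^ 4 + 537824 * t ^ 5 := by
  have a5 := cast_choose5 (t + 5)
  have a4 := cast_choose5 (t + 4)
  have a3 := cast_choose5 (t + 3)
  have a2 := cast_choose5 (t + 2)
  have a1 := cast_choose5 (t + 1)
  have a0 := cast_choose5 t
  push_cast at *
  linear_combination a5 + 8567 * a4 + 130403 * a3 + 278187 * a2 + 114478 * a1 + 6188 * a0

theorem digit {X a a' b b' : ℕ} (h : a + X * b = a' + X * b') (ha : a < X) (ha' : a' < X) :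
    a = a' ∧ b = b' := by
  have hX : 0 < X := by omega
  have h1 : a = a' := by
    have := congrArg (· % X) h
    simpa [Nat.add_mul_mod_self_left, Nat.mod_eq_of_lt ha, Nat.mod_eq_of_lt ha'] using this
  subst h1
  refine ⟨rfl, ?_⟩
  exact Nat.eq_of_mul_eq_mul_left hX (by omega)

theorem fiber_sum (N : ℕ) (w : ℕ → ℕ) (hw : ∀ b < N, w b ≤ 5) (g : ℕ → ℕ) :
    ∑ b ∈ Finset.range N, g (w b) =
      ∑ j ∈ Finset.range 6, ((Finset.range N).filter (fun b => w b = j)).card * g j := by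
  rw [← Finset.sum_fiberwise_of_maps_to (s := Finset.range N) (t := Finset.range 6) (g := w)]
  · refine Finset.sum_congr rfl (fun j _ => ?_)
    rw [Finset.sum_congr rfl (g := fun _ => g j) (by
      intro b hb; rw [(Finset.mem_filter.1 hb).2])]
    rw [Finset.sum_const, smul_eq_mul]
  · intro b hb
    have := hw b (Finset.mem_range.1 hb)
    exact Finset.mem_range.2 (by omega)

theorem fibers (N : ℕ) (w : ℕ → ℕ) (hw : ∀ b < N, w b ≤ 5) (hN : N < 2 ^ 20)
    (a0 a1 a2 a3 a4 a5 : ℕ) (h0 : a0 < 2 ^ 20) (h1 : a1 < 2 ^ 20) (h2 : a2 < 2 ^ 20)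
    (h3 : a3 < 2 ^ 20) (h4 : a4 < 2 ^ 20)
    (h : ∑ b ∈ Finset.range N, (2 ^ 20) ^ w b = a0 + 2 ^ 20 * (a1 + 2 ^ 20 * (a2 + 2 ^ 20 * (a3 +
      2 ^ 20 * (a4 + 2 ^ 20 * a5))))) (g : ℕ → ℕ) :
    ∑ b ∈ Finset.range N, g (w b) = a0 * g 0 + a1 * g 1 + a2 * g 2 + a3 * g 3 + a4 * g 4 + a5 * g 5 := by
  rw [fiber_sum N w hw g]
  rw [fiber_sum N w hw (fun j => (2 ^ 20) ^ j)] at h
  have hc : ∀ j, ((Finset.range N).filter (fun b => w b = j)).card < 2 ^ 20 := by
    intro j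
    refine lt_of_le_of_lt (Finset.card_filter_le _ _) ?_
    rwa [Finset.card_range]
  simp only [Finset.sum_range_succ, Finset.sum_range_zero, zero_add] at h ⊢
  generalize (2 ^ 20 : ℕ) = X at *
  have c0 := hc 0
  have c1 := hc 1
  have c2 := hc 2
  have c3 := hc 3
  have c4 := hc 4
  clear hc
  generalize ((Finset.range N).filter (fun b => w b = 0)).card = n0 at *
  generalize ((Finset.range N).filter (fun b => w b = 1)).card = n1 at *
  generalize ((Finset.range N).filter (fun b => w b = 2)).card = n2 at *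
  generalize ((Finset.range N).filter (fun b => w b = 3)).card = n3 at *
  generalize ((Finset.range N).filter (fun b => w b = 4)).card = n4 at *
  generalize ((Finset.range N).filter (fun b => w b = 5)).card = n5 at *
  have h' : n0 + X * (n1 + X * (n2 + X * (n3 + X * (n4 + X * n5))))
      = a0 + X * (a1 + X * (a2 + X * (a3 + X * (a4 + X * a5)))) := by
    rw [← h]; ring
  obtain ⟨r0, h'⟩ := digit h' c0 h0
  obtain ⟨r1, h'⟩ := digit h' c1 h1
  obtain ⟨r2, h'⟩ := digit h' c2 h2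
  obtain ⟨r3, h'⟩ := digit h' c3 h3
  obtain ⟨r4, r5⟩ := digit h' c4 h4
  rw [r0, r1, r2, r3, r4, r5]

theorem genfun (N : ℕ) (hN : N = 14 * 38416) :
    ∑ b ∈ Finset.range N, (2 ^ 20) ^ (w b) = tree 4 0 := by
  obtain ⟨M, hM⟩ : ∃ M : ℕ, M = 38416 := ⟨_, rfl⟩
  have h2 : (14 : ℕ) ^ 4 = M := by rw [hM]; norm_num
  rw [hN, ← hM, sum_range_mul', Finset.sum_comm, tree_eq, h2]
  refine Finset.sum_congr rfl (fun b hb => ?_)
  rw [Finset.mem_range] at hb
  have e1 : ∑ c ∈ Finset.range 14, (2 ^ 20 : ℕ) ^ w (c * M + b)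
      = (2 ^ 20) ^ w4 b * ∑ c ∈ Finset.range 14, (2 ^ 20 : ℕ) ^ (if 13 * b / 38416 < c then 1 else 0) := by
    rw [Finset.mul_sum]
    refine Finset.sum_congr rfl (fun c hc => ?_)
    rw [hM, w_split c b (Finset.mem_range.1 hc) (by omega), pow_add]
  rw [e1, top_digit _ (by omega)]
  unfold leaf
  rw [zero_mul, zero_add, pow_mul]

theorem card_value (N t : ℕ) (hN : N = 537824) : (F N t).card =
    1 * (t + 5).choose 5 + 8567 * (t + 4).choose 5
    + 130403 * (t + 3).choose 5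
    + 278187 * (t + 2).choose 5 + 114478 * (t + 1).choose 5 + 6188 * t.choose 5 := by
  rw [card_F N t hN]
  have hg : ∑ b ∈ Finset.range N, (2 ^ 20) ^ w b = 1 + 2 ^ 20 * (8567 + 2 ^ 20 * (130403 +
      2 ^ 20 * (278187 + 2 ^ 20 * (114478 + 2 ^ 20 * 6188)))) := by
    rw [genfun N (by omega), tree_val]
  have := fibers N w (fun b hb => w_le b (by omega)) (by rw [hN]; norm_num)
    1 8567 130403 278187 114478 6188 (by norm_num) (by norm_num) (by norm_num) (by norm_num)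
    (by norm_num) hg (fun j => (t + 5 - j).choose 5)
  exact this

/-- the Ehrhart polynomial of `B_(14,5)` -/
noncomputable def ehr : Polynomial ℚ :=
  Polynomial.C 1 + Polynomial.C (-268 / 15) * Polynomial.X
    + Polynomial.C (3955 / 12) * Polynomial.X ^ 2
    + Polynomial.C (5833 / 2) * Polynomial.X ^ 3 + Polynomial.C (10343 / 12) * Polynomial.X ^ 4
    + Polynomial.C (67228 / 15) * Polynomial.X ^ 5

theorem ehr_is : IsEhrhartPolynomial (baseSimplex 14 5) ehr := by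
  intro t
  obtain ⟨N, hN⟩ : ∃ N : ℕ, N = 537824 := ⟨_, rfl⟩
  refine ⟨(F N t).card, count_eq N t hN, ?_⟩
  rw [card_value N t hN]
  have h := total t
  have e : ehr.eval (t : ℚ) = 1 + (-268 / 15) * t + (3955 / 12) * t ^ 2 + (5833 / 2) * t ^ 3
      + (10343 / 12) * t ^ 4 + (67228 / 15) * t ^ 5 := by
    simp [ehr]
  rw [e]
  linear_combination h / 120

theorem ehr_coeff : ehr.coeff 1 = -268 / 15 := by
  simp [ehr, Polynomial.coeff_one]

theorem ehr_unique {d : ℕ} {P : Set (Fin d → ℝ)} {p q : Polynomial ℚ}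
    (hp : IsEhrhartPolynomial P p) (hq : IsEhrhartPolynomial P q) : p = q := by
  refine Polynomial.eq_of_infinite_eval_eq p q ?_
  refine (Set.infinite_range_of_injective (Nat.cast_injective (R := ℚ))).mono ?_
  rintro _ ⟨t, rfl⟩
  obtain ⟨N, hN, hNp⟩ := hp t
  obtain ⟨M, hM, hMq⟩ := hq t
  have : N = M := by
    have := hN.symm.trans hM
    exact_mod_cast this
  change p.eval (t : ℚ) = q.eval (t : ℚ)
  rw [← hNp, ← hMq, this]

/-- **Disproof of Q1.**  The base-`14` `5`-simplex has an Ehrhart polynomial whose linear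
coefficient is `-268/15`, so it is not Ehrhart positive. -/
theorem result :
    (∃ p : Polynomial ℚ, IsEhrhartPolynomial (baseSimplex 14 5) p ∧ p.coeff 1 = -268 / 15) ∧
    (∀ p : Polynomial ℚ, IsEhrhartPolynomial (baseSimplex 14 5) p → p.coeff 1 < 0) ∧
    ¬ (∀ r d : ℕ, 2 ≤ r → 1 ≤ d → ∀ p : Polynomial ℚ, IsEhrhartPolynomial (baseSimplex r d) p →
      ∀ i ≤ d, 0 < p.coeff i) := by
  have key : ∀ p : Polynomial ℚ, IsEhrhartPolynomial (baseSimplex 14 5) p → p.coeff 1 < 0 := by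
    intro p hp
    rw [ehr_unique hp ehr_is, ehr_coeff]
    norm_num
  refine ⟨⟨ehr, ehr_is, ehr_coeff⟩, key, fun h => ?_⟩
  have h1 := h 14 5 (by norm_num) (by norm_num) ehr ehr_is 1 (by norm_num)
  have h2 := key ehr ehr_is
  exact absurd h1 (not_lt.2 h2.le)

end Pool.Agent.Results.MP_ffae75_co.NotEhrhartPositive
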